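import Pool.Agent.Helper72.AI.Stmts3

/-! MP_870acd_co, packet E_supp. -/

namespace Pool.Agent.Helper89.AI

open AffInc

theorem pf_E_supp : AffInc.E_supp := by
  intro G p D1 D2 α β hG hp hD hα hβ h1 h2
  have hpi : p ∉ interior G := fun h => hp.2 h
  obtain ⟨f, hf⟩ := geometric_hahn_banach_open_point hG.cvx.interior isOpen_interior hpi
  have hle : ∀ q ∈ G, f q ≤ f p := by
    intro q hq
    have h3 : q ∈ closure (interior G) := by
      rw [hG.cvx.closure_interior_eq_closure_of_nonempty_interior hG.int]
      exact subset_closure hq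
    have h4 : closure (interior G) ⊆ {x | f x ≤ f p} :=
      closure_minimal (fun x hx => (hf x hx).le) (isClosed_le f.continuous continuous_const)
    exact h4 h3
  set A : ℝ := f (1, 0) with hA
  set B : ℝ := f (0, 1) with hB
  have hfx : ∀ x : ℝ × ℝ, f x = x.1 * A + x.2 * B := by
    intro x
    have : x = x.1 • ((1 : ℝ), (0 : ℝ)) + x.2 • ((0 : ℝ), (1 : ℝ)) := by
      ext <;> simp
    conv_lhs => rw [this]
    rw [map_add, map_smul, map_smul, smul_eq_mul, smul_eq_mul]
  have key : ∀ q ∈ G, 0 ≤ cross (-B, A) (q - p) := by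
    intro q hq
    have h3 := hle q hq
    rw [hfx, hfx] at h3
    simp only [cross, Prod.fst_sub, Prod.snd_sub]
    linarith
  have k1 := key _ h1
  have k2 := key _ h2
  have X0 : 0 ≤ cross (-B, A) D2 := by
    simp only [cross, Prod.fst_sub, Prod.snd_sub, Prod.fst_add, Prod.snd_add, Prod.smul_fst,
      Prod.smul_snd, smul_eq_mul] at k2 ⊢
    have h3 : 0 ≤ β * (-B * D2.2 - A * D2.1) := by linarith
    exact nonneg_of_mul_nonneg_right h3 hβ
  have Y0 : 0 ≤ - cross (-B, A) D1 := by
    simp only [cross, Prod.fst_sub, Prod.snd_sub, Prod.smul_fst,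
      Prod.smul_snd, smul_eq_mul] at k1 ⊢
    have h3 : 0 ≤ α * (-(-B * D1.2 - A * D1.1)) := by linarith
    exact nonneg_of_mul_nonneg_right h3 hα
  set X : ℝ := cross (-B, A) D2 with hX
  set Y : ℝ := - cross (-B, A) D1 with hY
  have hpos : 0 < X + Y := by
    rcases (add_nonneg X0 Y0).eq_or_lt with h0 | h0
    · exfalso
      have hX0 : X = 0 := by linarith
      have hY0 : Y = 0 := by linarith
      have e1 : cross D1 D2 * -B = X * D1.1 + Y * D2.1 := by
        simp only [hX, hY, cross]
        ring
      have e2 : cross D1 D2 * A = X * D1.2 + Y * D2.2 := by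
        simp only [hX, hY, cross]
        ring
      rw [hX0, hY0] at e1 e2
      have hB0 : B = 0 := by
        have : cross D1 D2 * -B = 0 := by linarith
        rcases mul_eq_zero.1 this with h | h
        · exact absurd h hD.ne'
        · linarith
      have hA0 : A = 0 := by
        have : cross D1 D2 * A = 0 := by linarith
        rcases mul_eq_zero.1 this with h | h
        · exact absurd h hD.ne'
        · exact h
      obtain ⟨z, hz⟩ := hG.int
      have := hf z hz
      rw [hfx, hfx, hA0, hB0] at this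
      simp at this
    · exact h0
  refine ⟨X / (X + Y), div_nonneg X0 hpos.le, div_le_one_of_le₀ (by linarith) hpos.le, ?_⟩
  intro q hq
  have h3 : cross ((X / (X + Y)) • D1 + (1 - X / (X + Y)) • D2) (q - p) =
      cross D1 D2 * cross (-B, A) (q - p) / (X + Y) := by
    have e3 : (1 - X / (X + Y)) = Y / (X + Y) := by
      field_simp
      ring
    rw [e3]
    simp only [cross, Prod.fst_sub, Prod.snd_sub, Prod.fst_add, Prod.snd_add, Prod.smul_fst,
      Prod.smul_snd, smul_eq_mul]
    rw [eq_div_iff hpos.ne']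
    have e4 : ((X / (X + Y) * D1.1 + Y / (X + Y) * D2.1) * (q.2 - p.2) -
        (X / (X + Y) * D1.2 + Y / (X + Y) * D2.2) * (q.1 - p.1)) * (X + Y) =
        (X * D1.1 + Y * D2.1) * (q.2 - p.2) - (X * D1.2 + Y * D2.2) * (q.1 - p.1) := by
      field_simp
    rw [e4]
    simp only [hX, hY, cross]
    ring
  rw [h3]
  exact div_nonneg (mul_nonneg hD.le (key q hq)) hpos.le

end Pool.Agent.Helper89.AI
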