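import Pool.Agent.Helper72.AI.Stmts

/-! MP_870acd_co, packet S_ellipse. -/

namespace Pool.Agent.Helper89.AI

open AffInc Filter Topology

theorem pf_S_ellipse : AffInc.S_ellipse := by
  intro G g a b c hN hP hg
  -- bounds for the points of `G`
  have hb : ∀ p ∈ G, a + b * p.1 - c * √(1 - p.1 ^ 2) ≤ p.2 ∧
      p.2 ≤ a + b * p.1 + c * √(1 - p.1 ^ 2) := by
    intro p hp
    obtain ⟨h1, h2⟩ := hN.strip p hp
    have hcos : Real.cos (Real.arccos p.1) = p.1 := Real.cos_arccos h1 h2
    have hsin : Real.sin (Real.arccos p.1) = √(1 - p.1 ^ 2) := Real.sin_arccos p.1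
    constructor
    · have h3 := hP.lower (-Real.arccos p.1) (by
        rw [Real.sin_neg, hsin]
        exact neg_nonpos.2 (Real.sqrt_nonneg _)) p.2 (by rw [Real.cos_neg, hcos]; exact hp)
      rw [hg, Real.cos_neg, Real.sin_neg, hcos, hsin] at h3
      linarith
    · have h3 := hP.upper (Real.arccos p.1) (by rw [hsin]; exact Real.sqrt_nonneg _) p.2
        (by rw [hcos]; exact hp)
      rw [hg, hcos, hsin] at h3
      exact h3
  have hm : ∀ u : ℝ, -1 ≤ u → u ≤ 1 → ((u, a + b * u + c * √(1 - u ^ 2)) : ℝ × ℝ) ∈ G ∧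
      ((u, a + b * u - c * √(1 - u ^ 2)) : ℝ × ℝ) ∈ G := by
    intro u h1 h2
    have hcos : Real.cos (Real.arccos u) = u := Real.cos_arccos h1 h2
    have hsin : Real.sin (Real.arccos u) = √(1 - u ^ 2) := Real.sin_arccos u
    constructor
    · have h3 := hP.mem (Real.arccos u)
      rw [hg, hcos, hsin] at h3
      exact h3
    · have h3 := hP.mem (-Real.arccos u)
      rw [hg, Real.cos_neg, Real.sin_neg, hcos, hsin, mul_neg, ← sub_eq_add_neg] at h3
      exact h3
  have hc0 : 0 ≤ c := by
    have h1 := hm 0 (by norm_num) (by norm_num)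
    have h2 := (hb _ h1.2).2
    simp only [mul_zero, add_zero, ne_eq, OfNat.ofNat_ne_zero, not_false_eq_true, zero_pow,
      sub_zero, Real.sqrt_one, mul_one] at h2
    linarith
  have hc : 0 < c := by
    rcases hc0.eq_or_lt with h0 | h0
    · exfalso
      have hline : ∀ p ∈ G, p.2 = a + b * p.1 := by
        intro p hp
        have := hb p hp
        rw [← h0, zero_mul, sub_zero, add_zero] at this
        exact le_antisymm this.2 this.1
      obtain ⟨p, hp⟩ := hN.fig.int
      have hev : ∀ᶠ t in 𝓝 (0 : ℝ), p + ((0 : ℝ), t) ∈ G := by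
        have hcont : Continuous (fun t : ℝ => p + ((0 : ℝ), t)) := by fun_prop
        have h1 : Tendsto (fun t : ℝ => p + ((0 : ℝ), t)) (𝓝 0) (𝓝 p) := by
          have h2 := hcont.tendsto 0
          have h3 : p + ((0 : ℝ), (0 : ℝ)) = p := by ext <;> simp
          rwa [h3] at h2
        exact h1.eventually (mem_interior_iff_mem_nhds.1 hp)
      have hev' : ∀ᶠ t in 𝓝[≠] (0 : ℝ), p + ((0 : ℝ), t) ∈ G ∧ t ≠ 0 :=
        (hev.filter_mono nhdsWithin_le_nhds).and self_mem_nhdsWithin
      obtain ⟨t, ht, ht0⟩ := hev'.exists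
      have h1 := hline _ ht
      have h2 := hline _ (interior_subset hp)
      simp only [Prod.fst_add, Prod.snd_add, add_zero] at h1
      apply ht0
      linarith
    · exact h0
  have hT : ∀ q : ℝ × ℝ, T ![(0, a), (1, a + b), (0, a + c)] q = (q.1, a + b * q.1 + c * q.2) := by
    intro q
    rw [T_def]
    simp only [Matrix.cons_val_zero, Matrix.cons_val_one, Matrix.cons_val]
    ext
    · simp
    · simp
      ring
  refine ⟨![(0, a), (1, a + b), (0, a + c)], ?_, ?_⟩
  · have : det3 ![(0, a), (1, a + b), (0, a + c)] = c := by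
      simp [det3]
    rw [this]
    exact hc.ne'
  · apply Set.Subset.antisymm
    · intro p hp
      obtain ⟨h1, h2⟩ := hN.strip p hp
      obtain ⟨h3, h4⟩ := hb p hp
      refine ⟨(p.1, (p.2 - a - b * p.1) / c), ?_, ?_⟩
      · show p.1 ^ 2 + ((p.2 - a - b * p.1) / c) ^ 2 ≤ 1
        have h5 : ((p.2 - a - b * p.1) / c) ^ 2 ≤ 1 - p.1 ^ 2 := by
          have h6 : 0 ≤ 1 - p.1 ^ 2 := by nlinarith
          rw [← Real.sq_sqrt h6]
          apply sq_le_sq'
          · rw [le_div_iff₀ hc]
            linarith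
          · rw [div_le_iff₀ hc]
            linarith
        linarith
      · rw [hT]
        ext
        · rfl
        · show a + b * p.1 + c * ((p.2 - a - b * p.1) / c) = p.2
          field_simp
          ring
    · rintro _ ⟨q, hq, rfl⟩
      rw [hT]
      have hq' : q.1 ^ 2 + q.2 ^ 2 ≤ 1 := hq
      have h1 : -1 ≤ q.1 := by nlinarith [sq_nonneg q.2]
      have h2 : q.1 ≤ 1 := by nlinarith [sq_nonneg q.2]
      obtain ⟨m1, m2⟩ := hm q.1 h1 h2
      set s : ℝ := √(1 - q.1 ^ 2) with hs
      have hs0 : 0 ≤ s := Real.sqrt_nonneg _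
      have hs2 : s ^ 2 = 1 - q.1 ^ 2 := Real.sq_sqrt (by nlinarith [sq_nonneg q.2])
      have hv : |q.2| ≤ s := by
        apply abs_le_of_sq_le_sq _ hs0
        rw [hs2]
        linarith
      obtain ⟨hv1, hv2⟩ := abs_le.1 hv
      rcases hs0.eq_or_lt with h0 | h0
      · have : q.2 = 0 := by
          rw [← h0] at hv1 hv2
          linarith
        rw [this]
        rw [← h0] at m1
        exact m1
      · have key := hN.fig.cvx m1 m2 (a := (s + q.2) / (2 * s)) (b := (s - q.2) / (2 * s))
          (div_nonneg (by linarith) (by linarith)) (div_nonneg (by linarith) (by linarith))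
          (by field_simp; ring)
        have e : ((s + q.2) / (2 * s)) • ((q.1, a + b * q.1 + c * s) : ℝ × ℝ) +
            ((s - q.2) / (2 * s)) • ((q.1, a + b * q.1 - c * s) : ℝ × ℝ) =
            (q.1, a + b * q.1 + c * q.2) := by
          ext
          · simp only [Prod.fst_add, Prod.smul_fst, smul_eq_mul]
            field_simp
            ring
          · simp only [Prod.snd_add, Prod.smul_snd, smul_eq_mul]
            field_simp
            ring
        rw [e] at key
        exact key

end Pool.Agent.Helper89.AI
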